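import Pool.Agent.Helper1.NX.STEP

/-! # NX / CHN (MP_75608d_al): boundedly many fresh generators -/

set_option linter.unusedVariables false
set_option linter.unusedSectionVars false

namespace Pool.Agent.Helper1.NX.CHN

open Matrix Equiv Filter Topology Pool.Agent.Helper15.An
open scoped ComplexOrder
open Pool.Agent.Helper6.NX
open Pool.Agent.Helper1.NX.STEP (dd_mono)

/-- the exceptional tuples -/
def Bad {n k : ℕ} (z : Fin k → Alt n) (F : PW (Perm (Fin n))) (g : ℝ) (J : ℕ)
    (y : Fin J → Alt n) : Prop :=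
  ∃ i, (F.D i : ℝ) * (4 * (n : ℝ) * F.c * (dd F z i g : ℝ) / F.D i) ^ (2 ^ J) <
    4 * (n : ℝ) * F.c * (dd F (Fin.append z y) i (g / (256 * ((k : ℝ) + J)) ^ J) : ℝ)

/-- the exceptional elements for one step -/
def Exc {n m : ℕ} (x : Fin m → Alt n) (F : PW (Perm (Fin n))) (G : ℝ) (a : Alt n) : Prop :=
  ∃ i, 4 * (n : ℝ) * F.c * (dd F x i G : ℝ) ^ 2 <
    F.D i * (dd F (Fin.snoc x a : Fin (m + 1) → Alt n) i (G / (256 * ((m : ℝ) + 1))) : ℝ)

theorem bad_snoc {n k J : ℕ} {z : Fin k → Alt n} {F : PW (Perm (Fin n))} {g : ℝ} (hk : 1 ≤ k)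
    (hg : 0 < g) {y : Fin J → Alt n} {a : Alt n} (hy : ¬ Bad z F g J y)
    (hb : Bad z F g (J + 1) (Fin.snoc y a : Fin (J + 1) → Alt n)) :
    Exc (Fin.append z y) F (g / (256 * ((k : ℝ) + J)) ^ J) a := by
  obtain ⟨i, hi⟩ := hb
  refine ⟨i, ?_⟩
  by_contra hcon
  push Not at hcon
  have hyi : 4 * (n : ℝ) * F.c *
      (dd F (Fin.append z y) i (g / (256 * ((k : ℝ) + J)) ^ J) : ℝ) ≤
      (F.D i : ℝ) * (4 * (n : ℝ) * F.c * (dd F z i g : ℝ) / F.D i) ^ (2 ^ J) := by
    by_contra h
    push Not at h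
    exact hy ⟨i, h⟩
  have hD : (0 : ℝ) < F.D i := by exact_mod_cast (F.irr i).pos
  have hk0 : (1 : ℝ) ≤ k := by exact_mod_cast hk
  have hap : (Fin.append z (Fin.snoc y a : Fin (J + 1) → Alt n)) =
      (Fin.snoc (Fin.append z y) a : Fin (k + J + 1) → Alt n) := Fin.append_snoc z y a
  have hgap : g / (256 * ((k : ℝ) + ((J + 1 : ℕ) : ℝ))) ^ (J + 1) ≤
      g / (256 * ((k : ℝ) + J)) ^ J / (256 * (((k + J : ℕ) : ℝ) + 1)) := by
    rw [div_div]
    refine div_le_div_of_nonneg_left hg.le (by positivity) ?_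
    push_cast
    rw [pow_succ, ← add_assoc]
    refine mul_le_mul_of_nonneg_right ?_ (by positivity)
    refine pow_le_pow_left₀ (by positivity) ?_ J
    linarith
  have hmono := dd_mono F (by omega : 0 < k + J + 1)
    (Fin.snoc (Fin.append z y) a : Fin (k + J + 1) → Alt n) i hgap
  have hmono' : (dd F (Fin.append z (Fin.snoc y a : Fin (J + 1) → Alt n)) i
      (g / (256 * ((k : ℝ) + ((J + 1 : ℕ) : ℝ))) ^ (J + 1)) : ℝ) ≤
      (dd F (Fin.snoc (Fin.append z y) a : Fin (k + J + 1) → Alt n) i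
        (g / (256 * ((k : ℝ) + J)) ^ J / (256 * (((k + J : ℕ) : ℝ) + 1))) : ℝ) := by
    have : dd F (Fin.append z (Fin.snoc y a : Fin (J + 1) → Alt n)) i
      (g / (256 * ((k : ℝ) + ((J + 1 : ℕ) : ℝ))) ^ (J + 1)) =
      dd F (Fin.snoc (Fin.append z y) a : Fin (k + J + 1) → Alt n) i
      (g / (256 * ((k : ℝ) + ((J + 1 : ℕ) : ℝ))) ^ (J + 1)) := by
      rw [hap]
    rw [this]
    exact_mod_cast hmono
  set C : ℝ := 4 * (n : ℝ) * F.c with hC
  have hC0 : 0 ≤ C := by positivity
  set d1 : ℝ := (dd F (Fin.append z (Fin.snoc y a : Fin (J + 1) → Alt n)) i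
      (g / (256 * ((k : ℝ) + ((J + 1 : ℕ) : ℝ))) ^ (J + 1)) : ℝ) with hd1
  set d2 : ℝ := (dd F (Fin.snoc (Fin.append z y) a : Fin (k + J + 1) → Alt n) i
        (g / (256 * ((k : ℝ) + J)) ^ J / (256 * (((k + J : ℕ) : ℝ) + 1))) : ℝ) with hd2
  set e : ℝ := (dd F (Fin.append z y) i (g / (256 * ((k : ℝ) + J)) ^ J) : ℝ) with he
  set X : ℝ := C * (dd F z i g : ℝ) / F.D i with hX
  have hX0 : 0 ≤ X := by positivity
  have he0 : 0 ≤ e := by positivity
  -- D * (C d1) ≤ D C d2 ≤ (C e)^2 ≤ (D X^(2^J))^2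
  have h1 : (F.D i : ℝ) * (C * d1) ≤ (C * e) ^ 2 := by
    have a1 : (F.D i : ℝ) * (C * d1) ≤ (F.D i : ℝ) * (C * d2) := by gcongr
    have a2 : (F.D i : ℝ) * (C * d2) ≤ C * (C * e ^ 2) := by
      have := mul_le_mul_of_nonneg_left hcon hC0
      nlinarith
    calc (F.D i : ℝ) * (C * d1) ≤ (F.D i : ℝ) * (C * d2) := a1
      _ ≤ C * (C * e ^ 2) := a2
      _ = (C * e) ^ 2 := by ring
  have h2 : (C * e) ^ 2 ≤ ((F.D i : ℝ) * X ^ (2 ^ J)) ^ 2 := by
    have : 0 ≤ C * e := by positivity
    gcongr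
  have h3 : ((F.D i : ℝ) * X ^ (2 ^ J)) ^ 2 = (F.D i : ℝ) * ((F.D i : ℝ) * X ^ (2 ^ (J + 1))) := by
    rw [pow_succ 2 J, pow_mul]; ring
  rw [h3] at h2
  have h4 : C * d1 ≤ (F.D i : ℝ) * X ^ (2 ^ (J + 1)) := le_of_mul_le_mul_left (h1.trans h2) hD
  exact absurd hi (not_lt.2 h4)

theorem thm (hstep : Pool.Agent.Helper6.NX.S_STEP) : Pool.Agent.Helper6.NX.S_CHN := by
  classical
  intro n k J z F g hk hn hg hg1
  change (Nat.card {y : Fin J → Alt n // Bad z F g J y} : ℝ) * n ≤
    J * (Fintype.card (Alt n) : ℝ) ^ J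
  induction J with
  | zero =>
    have : IsEmpty {y : Fin 0 → Alt n // Bad z F g 0 y} := by
      refine ⟨fun y => ?_⟩
      obtain ⟨i, hi⟩ := y.2
      have hD : (0 : ℝ) < F.D i := by exact_mod_cast (F.irr i).pos
      have h1 : dd F (Fin.append z y.1) i (g / (256 * ((k : ℝ) + ((0 : ℕ) : ℝ))) ^ 0) =
          dd F z i g := by
        rw [pow_zero, div_one]
        have h2 : Fin.append z y.1 = z := by
          rw [Fin.append_right_nil z y.1 rfl]
          rfl
        exact congrArg (fun w : Fin k → Alt n => dd F w i g) h2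
      rw [h1] at hi
      rw [pow_zero, pow_one, mul_div_cancel₀ _ hD.ne'] at hi
      exact lt_irrefl _ hi
    rw [Nat.card_of_isEmpty]
    simp
  | succ J ih =>
    set A : ℝ := (Fintype.card (Alt n) : ℝ) with hA
    have hA0 : 0 ≤ A := by positivity
    have hn0 : (0 : ℝ) < n := by exact_mod_cast (by omega : 0 < n)
    have hk0 : (1 : ℝ) ≤ k := by exact_mod_cast hk
    -- counting through the last coordinate
    have hcount : (Nat.card {y : Fin (J + 1) → Alt n // Bad z F g (J + 1) y} : ℝ) =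
        ∑ y : Fin J → Alt n, ((Finset.univ.filter fun a : Alt n =>
          Bad z F g (J + 1) (Fin.snoc y a : Fin (J + 1) → Alt n)).card : ℝ) := by
      rw [Nat.card_eq_fintype_card, Fintype.card_subtype, Finset.card_eq_sum_ones]
      push_cast
      rw [Finset.sum_filter,
        ← (Fin.snocEquiv (fun _ : Fin (J + 1) => (Alt n : Type))).sum_comp,
        Fintype.sum_prod_type_right]
      refine Finset.sum_congr rfl fun y _ => ?_
      rw [Finset.card_filter]
      push_cast
      refine Finset.sum_congr rfl fun a _ => ?_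
      rfl
    have hG : 0 < g / (256 * ((k : ℝ) + J)) ^ J := by positivity
    have hG1 : g / (256 * ((k : ℝ) + J)) ^ J ≤ 1 := by
      rw [div_le_one (by positivity)]
      refine hg1.trans (one_le_pow₀ ?_)
      have : (0 : ℝ) ≤ J := by positivity
      linarith
    have hone : ∀ y : Fin J → Alt n, ((Finset.univ.filter fun a : Alt n =>
          Bad z F g (J + 1) (Fin.snoc y a : Fin (J + 1) → Alt n)).card : ℝ) * n ≤
        (if Bad z F g J y then A * n else 0) + A := by
      intro y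
      by_cases hb : Bad z F g J y
      · rw [if_pos hb]
        have h1 : ((Finset.univ.filter fun a : Alt n =>
          Bad z F g (J + 1) (Fin.snoc y a : Fin (J + 1) → Alt n)).card : ℝ) ≤ A := by
          rw [hA, ← Finset.card_univ]
          exact_mod_cast Finset.card_le_card (Finset.filter_subset _ _)
        have h2 := mul_le_mul_of_nonneg_right h1 hn0.le
        linarith
      · rw [if_neg hb, zero_add]
        have h1 := hstep n (k + J) (Fin.append z y) F (g / (256 * ((k : ℝ) + J)) ^ J) (by omega)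
          hn hG hG1
        refine le_trans (mul_le_mul_of_nonneg_right ?_ hn0.le) h1
        rw [Nat.card_eq_fintype_card, Fintype.card_subtype]
        have h2 : (Finset.univ.filter fun a : Alt n =>
            Bad z F g (J + 1) (Fin.snoc y a : Fin (J + 1) → Alt n)) ⊆
            Finset.univ.filter fun a : Alt n =>
              Exc (Fin.append z y) F (g / (256 * ((k : ℝ) + J)) ^ J) a := by
          intro a ha
          exact Finset.mem_filter.2 ⟨Finset.mem_univ _,
            bad_snoc hk hg hb (Finset.mem_filter.1 ha).2⟩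
        refine (Nat.cast_le.2 (Finset.card_le_card h2)).trans (le_of_eq ?_)
        unfold Exc
        congr!
    rw [hcount, Finset.sum_mul]
    refine (Finset.sum_le_sum fun y _ => hone y).trans ?_
    rw [Finset.sum_add_distrib, Finset.sum_const, Finset.card_univ, ← Finset.sum_filter,
      Finset.sum_const]
    have h5 : ((Finset.univ.filter fun y : Fin J → Alt n => Bad z F g J y).card : ℝ) =
        (Nat.card {y : Fin J → Alt n // Bad z F g J y} : ℝ) := by
      rw [Nat.card_eq_fintype_card, Fintype.card_subtype]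
    have h6 : (Fintype.card (Fin J → Alt n) : ℝ) = A ^ J := by
      rw [Fintype.card_fun, Fintype.card_fin]; push_cast; rfl
    rw [nsmul_eq_mul, nsmul_eq_mul, h5, h6]
    have h7 := mul_le_mul_of_nonneg_right ih hA0
    push_cast
    calc (Nat.card {y : Fin J → Alt n // Bad z F g J y} : ℝ) * (A * n) + A ^ J * A
        = (Nat.card {y : Fin J → Alt n // Bad z F g J y} : ℝ) * n * A + A ^ (J + 1) := by ring
      _ ≤ (J : ℝ) * A ^ J * A + A ^ (J + 1) := by linarith
      _ = ((J : ℝ) + 1) * A ^ (J + 1) := by ring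

end Pool.Agent.Helper1.NX.CHN
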