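import Pool.Agent.Helper6.NX.GoalsE

/-! # NX / OV (MP_75608d_al): overlap of the top eigenspaces of the walks with and without a fresh
generator -/

set_option linter.unusedVariables false
set_option linter.unusedSectionVars false

namespace Pool.Agent.Helper1.NX.OV

open Matrix Equiv Filter Topology Pool.Agent.Helper15.An
open scoped ComplexOrder
open Pool.Agent.Helper3.AK (lazyLaw)

section gen
variable {d e : Type} [Fintype d] [DecidableEq d] [Fintype e] [DecidableEq e]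

/-- the quadratic form at a column -/
theorem qf_col (J : Matrix d e ℂ) (M : Matrix d d ℂ) (j : e) :
    qf M (J *ᵥ Pi.single j 1) = ((Jᴴ * M * J) j j).re := by
  unfold qf
  congr 1
  rw [star_mulVec, ← Matrix.dotProduct_mulVec, Matrix.mulVec_mulVec, Matrix.mulVec_mulVec]
  have h1 : star (Pi.single j 1 : e → ℂ) = Pi.single j 1 := by
    ext a
    by_cases h : a = j
    · subst h; simp
    · simp [Pi.single_eq_of_ne h]
  rw [h1, single_one_dotProduct, Matrix.mulVec_single_one]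
  simp only [Matrix.col_apply, Matrix.mul_assoc]

/-- sum of the quadratic forms over the columns of an isometry -/
theorem sum_col_le {J : Matrix d e ℂ} {M : Matrix d d ℂ} (hM : M.PosSemidef)
    (hJ : ((1 : Matrix d d ℂ) - J * Jᴴ).PosSemidef) :
    ∑ j, qf M (J *ᵥ Pi.single j 1) ≤ (trace M).re := by
  have h1 : ∑ j, qf M (J *ᵥ Pi.single j 1) = (trace (M * (J * Jᴴ))).re := by
    simp_rw [qf_col]
    rw [← Matrix.mul_assoc, Matrix.trace_mul_comm, ← Matrix.mul_assoc, Matrix.trace,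
      Complex.re_sum]
    rfl
  rw [h1]
  have h2 := trace_mul_mono hM hJ
  rwa [Matrix.mul_one] at h2

theorem nrm2_neg (v : d → ℂ) : nrm2 (-v) = nrm2 v := by
  unfold nrm2
  simp

theorem nrm2_proj_le {J : Matrix d e ℂ} (hJ : Jᴴ * J = 1) (z : d → ℂ) :
    nrm2 (((1 : Matrix d d ℂ) - J * Jᴴ) *ᵥ z) ≤ nrm2 z := by
  rw [nrm2_proj hJ]
  linarith [nrm2_nonneg (Jᴴ *ᵥ z)]

theorem key {J : Matrix d e ℂ} (hJ : Jᴴ * J = 1) {Y : Matrix d d ℂ} (hY : Yᴴ * Y = 1)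
    (v : d → ℂ) (hv : nrm2 v = 1) (h1 : nrm2 (Y *ᵥ v - v) ≤ 1 / 128)
    (h2 : nrm2 (((1 : Matrix d d ℂ) - J * Jᴴ) *ᵥ v) ≤ 1 / 256) :
    1 / 2 ≤ qf ((J * Jᴴ) * (Y * (J * Jᴴ) * Yᴴ) * (J * Jᴴ)) v := by
  have hY' : Y * Yᴴ = 1 := mul_eq_one_comm.1 hY
  set K : Matrix d e ℂ := Y * J with hK
  have hKK : Kᴴ * K = 1 := by
    rw [hK, conjTranspose_mul, Matrix.mul_assoc, ← Matrix.mul_assoc Yᴴ, hY, Matrix.one_mul, hJ]
  have hKc : K * Kᴴ = Y * (J * Jᴴ) * Yᴴ := by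
    rw [hK, conjTranspose_mul]
    simp only [Matrix.mul_assoc]
  set Q : Matrix d d ℂ := J * Jᴴ with hQ
  have hQh : Qᴴ = Q := by rw [hQ, conjTranspose_mul, conjTranspose_conjTranspose]
  have e1 : Q * (Y * Q * Yᴴ) * Q = (Kᴴ * Q)ᴴ * (Kᴴ * Q) := by
    rw [← hKc, conjTranspose_mul Kᴴ Q, conjTranspose_conjTranspose, hQh]
    simp only [Matrix.mul_assoc]
  rw [e1, ← nrm2_mulVec, ← Matrix.mulVec_mulVec]
  have e2 := nrm2_proj hKK (Q *ᵥ v)
  have e3 : nrm2 (Q *ᵥ v) = 1 - nrm2 (((1 : Matrix d d ℂ) - Q) *ᵥ v) := by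
    rw [hQ, nrm2_proj hJ, ← Matrix.mulVec_mulVec, nrm2_iso hJ, hv]; ring
  have e4 : ((1 : Matrix d d ℂ) - K * Kᴴ) *ᵥ (Q *ᵥ v) =
      Y *ᵥ (((1 : Matrix d d ℂ) - Q) *ᵥ (Yᴴ *ᵥ (Q *ᵥ v))) := by
    have e0 : (1 : Matrix d d ℂ) - K * Kᴴ = Y * (((1 : Matrix d d ℂ) - Q) * Yᴴ) := by
      rw [hKc, Matrix.sub_mul, Matrix.one_mul, Matrix.mul_sub, hY', Matrix.mul_assoc]
    rw [e0, ← Matrix.mulVec_mulVec, ← Matrix.mulVec_mulVec]
  have e5 : ((1 : Matrix d d ℂ) - Q) *ᵥ (Yᴴ *ᵥ (Q *ᵥ v)) =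
      ((1 : Matrix d d ℂ) - Q) *ᵥ v + ((1 : Matrix d d ℂ) - Q) *ᵥ (Yᴴ *ᵥ v - v) +
        -(((1 : Matrix d d ℂ) - Q) *ᵥ (Yᴴ *ᵥ (((1 : Matrix d d ℂ) - Q) *ᵥ v))) := by
    have : Q *ᵥ v = v - ((1 : Matrix d d ℂ) - Q) *ᵥ v := by
      rw [Matrix.sub_mulVec, Matrix.one_mulVec]; abel
    conv_lhs => rw [this]
    rw [Matrix.mulVec_sub Yᴴ, Matrix.mulVec_sub, Matrix.mulVec_sub]
    abel
  have e6 : nrm2 (Yᴴ *ᵥ v - v) = nrm2 (Y *ᵥ v - v) := by
    rw [← nrm2_unitary hY (Yᴴ *ᵥ v - v), Matrix.mulVec_sub, Matrix.mulVec_mulVec, hY',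
      Matrix.one_mulVec, ← nrm2_neg, neg_sub]
  have hYu : (Yᴴ)ᴴ * Yᴴ = 1 := by rw [conjTranspose_conjTranspose]; exact hY'
  have e7 : nrm2 (((1 : Matrix d d ℂ) - Q) *ᵥ (Yᴴ *ᵥ (Q *ᵥ v))) ≤ 3 * (1 / 256 + 1 / 128 + 1 / 256) := by
    rw [e5]
    refine (nrm2_add3 _ _ _).trans ?_
    have a1 : nrm2 (((1 : Matrix d d ℂ) - Q) *ᵥ (Yᴴ *ᵥ v - v)) ≤ 1 / 128 :=
      (nrm2_proj_le hJ _).trans (by rw [e6]; exact h1)
    have a2 : nrm2 (-(((1 : Matrix d d ℂ) - Q) *ᵥ (Yᴴ *ᵥ (((1 : Matrix d d ℂ) - Q) *ᵥ v)))) ≤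
        1 / 256 := by
      rw [nrm2_neg]
      refine (nrm2_proj_le hJ _).trans ?_
      rw [nrm2_unitary hYu]
      exact h2
    linarith
  rw [e4, nrm2_unitary hY] at e2
  linarith

end gen

theorem eig_col {D : ℕ} {T : Matrix (Fin D) (Fin D) ℂ} (hT : T.IsHermitian) (θ : ℝ)
    (j : TopIdx hT θ) :
    T *ᵥ (topIso hT θ *ᵥ Pi.single j 1) =
      ((hT.eigenvalues j.1 : ℝ) : ℂ) • (topIso hT θ *ᵥ Pi.single j 1) := by
  have h1 : topIso hT θ *ᵥ Pi.single j 1 = ⇑(hT.eigenvectorBasis j.1) := by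
    rw [Matrix.mulVec_single_one]
    ext a
    rfl
  rw [h1]
  have h2 := hT.mulVec_eigenvectorBasis j.1
  rw [h2]
  ext a
  simp

theorem thm : Pool.Agent.Helper6.NX.S_OV := by
  intro n k D z y g ρ h h' hk hu hg hg1
  have hk' : (1 : ℝ) ≤ (k : ℝ) := by exact_mod_cast hk
  set J := topIso h (1 - g) with hJdef
  set g' : ℝ := g / (256 * (k + 1)) with hg'
  set J' := topIso h' (1 - g') with hJ'def
  have hJ : Jᴴ * J = 1 := topIso_conj_mul h (1 - g)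
  have hJ' : J'ᴴ * J' = 1 := topIso_conj_mul h' (1 - g')
  set Y : Matrix (Fin D) (Fin D) ℂ := ρ (y : Perm (Fin n)) with hY
  have hYu : Yᴴ * Y = 1 := hu _
  have hSP := tupW_isSP (by omega : 0 < k) z
  have hP1 := one_sub_wop ρ hu hSP
  set x : Fin (k + 1) → Alt n := Fin.snoc z y with hx
  have hgap := gap_off_top h hP1 (1 - g)
  rw [← hJdef] at hgap
  -- near invariance
  have hfac : ∀ v : Fin D → ℂ, nrm2 v = 1 → 1 - g' ≤ qf (wop ρ (tupW x)) v →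
      nrm2 (Y *ᵥ v - v) ≤ 1 / 128 ∧ nrm2 (((1 : Matrix (Fin D) (Fin D) ℂ) - J * Jᴴ) *ᵥ v) ≤ 1 / 256 := by
    intro v hv hq
    have hk0 : (0 : ℝ) < 2 * (k + 1 : ℕ) := by positivity
    -- energies
    have h1 := qf_avgRe (by omega : 0 < k + 1) (fun l => ρ (x l : Perm (Fin n))) v
    rw [← wop_tupW ρ hu x] at h1
    have h2 : ∀ l, nrm2 (ρ (x l : Perm (Fin n)) *ᵥ v - v) =
        2 * nrm2 v - 2 * qf (ρ (x l : Perm (Fin n))) v := fun l => nrm2_sub_unitary (hu _) v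
    have h1' := qf_avgRe (by omega : 0 < k) (fun l => ρ (z l : Perm (Fin n))) v
    rw [← wop_tupW ρ hu z] at h1'
    rw [Fin.sum_univ_castSucc] at h1
    have hxz : ∀ l : Fin k, x (Fin.castSucc l) = z l := fun l => by
      rw [hx, Fin.snoc_castSucc]
    have hxy : x (Fin.last k) = y := by rw [hx, Fin.snoc_last]
    simp_rw [hxz] at h1
    rw [hxy, ← h1'] at h1
    have h3 : nrm2 (Y *ᵥ v - v) = 2 - 2 * qf Y v := by
      rw [nrm2_sub_unitary hYu, hv]; ring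
    have h4 : 0 ≤ nrm2 (Y *ᵥ v - v) := nrm2_nonneg _
    have h5 : qf (wop ρ (tupW z)) v ≤ 1 := by
      have := qf_nonneg hP1 v
      rw [qf_sub, qf_smul, qf_one, hv] at this
      linarith
    rw [← hY] at h1
    push_cast at h1
    -- k (1 - qf P) + (1 - qf Y) = (k+1) (1 - qf P')
    have hg'k : (k + 1 : ℝ) * g' = g / 256 := by
      rw [hg']; field_simp
    have h6 : (k + 1 : ℝ) * (1 - qf (wop ρ (tupW x)) v) ≤ g / 256 := by
      rw [← hg'k]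
      have : (0 : ℝ) ≤ k + 1 := by positivity
      nlinarith
    have h7 : (k : ℝ) * (1 - qf (wop ρ (tupW z)) v) + (1 - qf Y v) ≤ g / 256 := by
      have : (k : ℝ) * (1 - qf (wop ρ (tupW z)) v) + (1 - qf Y v) =
        (k + 1 : ℝ) * (1 - qf (wop ρ (tupW x)) v) := by linarith
      rw [this]; exact h6
    have h8 : 0 ≤ 1 - qf Y v := by linarith
    have h9 : 0 ≤ (k : ℝ) * (1 - qf (wop ρ (tupW z)) v) :=
      mul_nonneg (by positivity) (by linarith)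
    refine ⟨by rw [h3]; linarith, ?_⟩
    have h10 : 1 - qf (wop ρ (tupW z)) v ≤ g / 256 := by
      have : (1 : ℝ) * (1 - qf (wop ρ (tupW z)) v) ≤ (k : ℝ) * (1 - qf (wop ρ (tupW z)) v) :=
        mul_le_mul_of_nonneg_right hk' (by linarith)
      linarith
    have h11 := qf_nonneg hgap v
    have hproj : qf ((1 : Matrix (Fin D) (Fin D) ℂ) - J * Jᴴ) v =
        nrm2 (((1 : Matrix (Fin D) (Fin D) ℂ) - J * Jᴴ) *ᵥ v) := by
      rw [nrm2_proj hJ, qf_sub, qf_one, nrm2_mulVec, conjTranspose_conjTranspose]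
    rw [qf_sub, qf_sub, qf_smul, qf_smul, qf_one, hproj, hv] at h11
    have h12 : g * nrm2 (((1 : Matrix (Fin D) (Fin D) ℂ) - J * Jᴴ) *ᵥ v) ≤ g * (1 / 256) := by
      linarith
    exact le_of_mul_le_mul_left h12 hg
  have hM : ((J * Jᴴ) * (Y * (J * Jᴴ) * Yᴴ) * (J * Jᴴ)).PosSemidef := by
    have h1 : (J * Jᴴ) * (Y * (J * Jᴴ) * Yᴴ) * (J * Jᴴ) =
        ((Y * J)ᴴ * (J * Jᴴ))ᴴ * ((Y * J)ᴴ * (J * Jᴴ)) := by
      simp only [conjTranspose_mul, conjTranspose_conjTranspose, Matrix.mul_assoc]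
    rw [h1]
    exact posSemidef_conjTranspose_mul_self _
  have hsum := sum_col_le (J := J') hM (one_sub_topIso_posSemidef h' (1 - g'))
  have hterm : ∀ j : TopIdx h' (1 - g'), 1 / 2 ≤
      qf ((J * Jᴴ) * (Y * (J * Jᴴ) * Yᴴ) * (J * Jᴴ)) (J' *ᵥ Pi.single j 1) := by
    intro j
    have hv : nrm2 (J' *ᵥ Pi.single j 1) = 1 := by
      rw [nrm2_iso hJ']
      unfold nrm2
      rw [Finset.sum_eq_single j]
      · simp
      · intro b _ hb
        rw [Pi.single_eq_of_ne hb]; simp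
      · simp
    have hq : 1 - g' ≤ qf (wop ρ (tupW x)) (J' *ᵥ Pi.single j 1) := by
      have h1 : qf (wop ρ (tupW x)) (J' *ᵥ Pi.single j 1) = h'.eigenvalues j.1 := by
        unfold qf
        rw [hJ'def, eig_col h' (1 - g') j, dotProduct_smul, star_dot_self, ← hJ'def, hv]
        simp
      rw [h1]
      exact j.2
    obtain ⟨a1, a2⟩ := hfac _ hv hq
    exact key hJ hYu _ hv a1 a2
  have hcard : (Fintype.card (TopIdx h' (1 - g')) : ℝ) * (1 / 2) ≤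
      (trace ((J * Jᴴ) * (Y * (J * Jᴴ) * Yᴴ) * (J * Jᴴ))).re := by
    refine le_trans ?_ hsum
    rw [← Finset.card_univ, ← nsmul_eq_mul, ← Finset.sum_const]
    exact Finset.sum_le_sum fun j _ => hterm j
  have hQQ : (J * Jᴴ) * (J * Jᴴ) = J * Jᴴ := by
    rw [Matrix.mul_assoc, ← Matrix.mul_assoc Jᴴ, hJ, Matrix.one_mul]
  have htr : trace ((J * Jᴴ) * (Y * (J * Jᴴ) * Yᴴ) * (J * Jᴴ)) =
      trace (Y * (J * Jᴴ) * Yᴴ * (J * Jᴴ)) := by
    rw [Matrix.trace_mul_comm, ← Matrix.mul_assoc, hQQ, Matrix.trace_mul_comm]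
  rw [htr] at hcard
  linarith

end Pool.Agent.Helper1.NX.OV
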