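import Pool.Agent.Helper6.NX.GoalsE

/-! # NX / STEP (MP_75608d_al): one fresh generator -/

set_option linter.unusedVariables false
set_option linter.unusedSectionVars false

namespace Pool.Agent.Helper1.NX.STEP

open Matrix Equiv Filter Topology Pool.Agent.Helper15.An
open scoped ComplexOrder
open Pool.Agent.Helper3.AK (lazyLaw)
open Pool.Agent.Helper6.NX

theorem herm {n m : ℕ} (F : PW (Perm (Fin n))) (hm : 0 < m) (x : Fin m → Alt n) (i : Fin F.c) :
    (wop (F.ρ i) (tupW x)).IsHermitian :=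
  wop_isHermitian _ (F.irr i).unit (tupW_isSP hm x)

theorem dd_eq {n m : ℕ} (F : PW (Perm (Fin n))) (hm : 0 < m) (x : Fin m → Alt n) (i : Fin F.c)
    (g : ℝ) : dd F x i g = Fintype.card (TopIdx (herm F hm x i) (1 - g)) := by
  unfold dd
  rw [dif_pos (herm F hm x i)]

theorem dd_mono {n m : ℕ} (F : PW (Perm (Fin n))) (hm : 0 < m) (x : Fin m → Alt n) (i : Fin F.c)
    {a b : ℝ} (hab : a ≤ b) : dd F x i a ≤ dd F x i b := by
  rw [dd_eq F hm, dd_eq F hm]
  refine Fintype.card_le_of_injective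
    (fun j : TopIdx (herm F hm x i) (1 - a) =>
      (⟨j.1, by linarith [j.2]⟩ : TopIdx (herm F hm x i) (1 - b))) ?_
  intro j j' h
  have h2 := congrArg Subtype.val h
  exact Subtype.ext h2

theorem top_psd {D : ℕ} {T : Matrix (Fin D) (Fin D) ℂ} (hT : T.IsHermitian) (θ : ℝ) :
    (topIso hT θ * (topIso hT θ)ᴴ).PosSemidef := by
  have := posSemidef_conjTranspose_mul_self ((topIso hT θ)ᴴ)
  rwa [conjTranspose_conjTranspose] at this

/-- the average overlap -/
theorem sum_overlap {n : ℕ} (hn : 2 ≤ n) (F : PW (Perm (Fin n))) (i : Fin F.c)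
    {M : Matrix (Fin (F.D i)) (Fin (F.D i)) ℂ} (hM : M.PosSemidef) :
    ∑ y : Alt n, (trace (F.ρ i (y : Perm (Fin n)) * M * (F.ρ i (y : Perm (Fin n)))ᴴ * M)).re ≤
      2 * (Fintype.card (Alt n) : ℝ) * (trace M).re / F.D i * (trace M).re := by
  have h1 := trace_mul_mono hM (design (F.irr i) (Alt n) (card_Alt hn) M hM)
  have h2 : (trace (M * ∑ a : Alt n, (F.ρ i (a : Perm (Fin n)))ᴴ * M *
      F.ρ i (a : Perm (Fin n)))).re =
      ∑ y : Alt n, (trace (F.ρ i (y : Perm (Fin n)) * M *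
        (F.ρ i (y : Perm (Fin n)))ᴴ * M)).re := by
    rw [Finset.mul_sum, Matrix.trace_sum, Complex.re_sum]
    refine Finset.sum_congr rfl fun y _ => ?_
    congr 1
    rw [← Matrix.mul_assoc, Matrix.trace_mul_comm]
    simp only [Matrix.mul_assoc]
  rw [h2] at h1
  refine h1.trans (le_of_eq ?_)
  rw [Matrix.mul_smul, Matrix.mul_one, Matrix.trace_smul, Fintype.card_fin]
  simp

theorem thm (hov : Pool.Agent.Helper6.NX.S_OV) : Pool.Agent.Helper6.NX.S_STEP := by
  classical
  intro n k z F g hk hn hg hg1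
  set g' : ℝ := g / (256 * (k + 1)) with hg'
  set A : ℝ := (Fintype.card (Alt n) : ℝ) with hA
  have hA0 : 0 ≤ A := by positivity
  have hn0 : (0 : ℝ) < n := by exact_mod_cast (by omega : 0 < n)
  -- sums
  have hsum : ∀ i : Fin F.c, (F.D i : ℝ) *
      ∑ y : Alt n, (dd F (Fin.snoc z y : Fin (k + 1) → Alt n) i g' : ℝ) ≤
      4 * A * (dd F z i g : ℝ) ^ 2 := by
    intro i
    have hD : (0 : ℝ) < F.D i := by exact_mod_cast (F.irr i).pos
    set h := herm F (by omega : 0 < k) z i with hh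
    have h1 := sum_overlap hn F i (top_psd h (1 - g))
    rw [trace_topIso] at h1
    have h2 : ∀ y : Alt n, (dd F (Fin.snoc z y : Fin (k + 1) → Alt n) i g' : ℝ) ≤
        2 * (trace (F.ρ i (y : Perm (Fin n)) * (topIso h (1 - g) * (topIso h (1 - g))ᴴ) *
          (F.ρ i (y : Perm (Fin n)))ᴴ * (topIso h (1 - g) * (topIso h (1 - g))ᴴ))).re := by
      intro y
      rw [dd_eq F (by omega : 0 < k + 1)]
      exact hov n k (F.D i) z y g (F.ρ i) h _ hk (F.irr i).unit hg hg1
    have h3 : (dd F z i g : ℝ) = (Fintype.card (TopIdx h (1 - g)) : ℝ) := by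
      rw [dd_eq F (by omega : 0 < k)]
    rw [Complex.natCast_re, ← h3] at h1
    have h4 : ∑ y : Alt n, (dd F (Fin.snoc z y : Fin (k + 1) → Alt n) i g' : ℝ) ≤
        2 * (2 * A * (dd F z i g : ℝ) / F.D i * (dd F z i g : ℝ)) := by
      refine (Finset.sum_le_sum fun y _ => h2 y).trans ?_
      rw [← Finset.mul_sum]
      exact mul_le_mul_of_nonneg_left h1 (by norm_num)
    calc (F.D i : ℝ) * ∑ y : Alt n, (dd F (Fin.snoc z y : Fin (k + 1) → Alt n) i g' : ℝ)
        ≤ (F.D i : ℝ) * (2 * (2 * A * (dd F z i g : ℝ) / F.D i * (dd F z i g : ℝ))) :=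
          mul_le_mul_of_nonneg_left h4 hD.le
      _ = 4 * A * (dd F z i g : ℝ) ^ 2 := by field_simp; ring
  -- the exceptional set of one representation
  set B : Fin F.c → Finset (Alt n) := fun i => Finset.univ.filter fun y : Alt n =>
    4 * (n : ℝ) * F.c * (dd F z i g : ℝ) ^ 2 <
      F.D i * (dd F (Fin.snoc z y : Fin (k + 1) → Alt n) i g' : ℝ) with hB
  have hBcard : ∀ i : Fin F.c, ((B i).card : ℝ) * n * F.c ≤ A := by
    intro i
    have hD : (0 : ℝ) < F.D i := by exact_mod_cast (F.irr i).pos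
    have h1 : ((B i).card : ℝ) * (4 * (n : ℝ) * F.c * (dd F z i g : ℝ) ^ 2) ≤
        4 * A * (dd F z i g : ℝ) ^ 2 := by
      refine le_trans ?_ (hsum i)
      rw [← nsmul_eq_mul, ← Finset.sum_const, Finset.mul_sum]
      refine (Finset.sum_le_sum fun y hy => (Finset.mem_filter.1 hy).2.le).trans ?_
      exact Finset.sum_le_sum_of_subset_of_nonneg (Finset.filter_subset _ _)
        (fun y _ _ => by positivity)
    by_cases hd : dd F z i g = 0
    · -- everything vanishes
      have h2 : B i = ∅ := by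
        rw [hB]
        refine Finset.filter_eq_empty_iff.2 fun y _ => ?_
        rw [hd]
        have h3 := hsum i
        rw [hd] at h3
        have h4 : (F.D i : ℝ) * (dd F (Fin.snoc z y : Fin (k + 1) → Alt n) i g' : ℝ) ≤
            (F.D i : ℝ) * ∑ y : Alt n, (dd F (Fin.snoc z y : Fin (k + 1) → Alt n) i g' : ℝ) :=
          mul_le_mul_of_nonneg_left (Finset.single_le_sum
            (f := fun y : Alt n => (dd F (Fin.snoc z y : Fin (k + 1) → Alt n) i g' : ℝ))
            (fun y _ => by positivity) (Finset.mem_univ y)) hD.le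
        push Not
        simp only [Nat.cast_zero] at h3 ⊢
        linarith
      rw [h2]
      simpa using hA0
    · have hd0 : (0 : ℝ) < (dd F z i g : ℝ) := by exact_mod_cast Nat.pos_of_ne_zero hd
      have h3 : (0 : ℝ) < 4 * (dd F z i g : ℝ) ^ 2 := by positivity
      have h4 : (4 * (dd F z i g : ℝ) ^ 2) * (((B i).card : ℝ) * n * F.c) ≤
          (4 * (dd F z i g : ℝ) ^ 2) * A := by nlinarith
      exact le_of_mul_le_mul_left h4 h3
  -- the union
  have hcard : (Nat.card {y : Alt n // ∃ i, 4 * (n : ℝ) * F.c * (dd F z i g : ℝ) ^ 2 <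
      F.D i * (dd F (Fin.snoc z y : Fin (k + 1) → Alt n) i g' : ℝ)} : ℝ) ≤
      ∑ i, ((B i).card : ℝ) := by
    rw [Nat.card_eq_fintype_card, Fintype.card_subtype]
    have h1 : (Finset.univ.filter fun y : Alt n => ∃ i, 4 * (n : ℝ) * F.c *
        (dd F z i g : ℝ) ^ 2 <
        F.D i * (dd F (Fin.snoc z y : Fin (k + 1) → Alt n) i g' : ℝ)) ⊆
        Finset.univ.biUnion B := by
      intro y hy
      obtain ⟨i, hi⟩ := (Finset.mem_filter.1 hy).2
      exact Finset.mem_biUnion.2 ⟨i, Finset.mem_univ _, Finset.mem_filter.2 ⟨Finset.mem_univ _, hi⟩⟩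
    exact_mod_cast (Finset.card_le_card h1).trans Finset.card_biUnion_le
  refine (mul_le_mul_of_nonneg_right hcard hn0.le).trans ?_
  by_cases hc : F.c = 0
  · have : IsEmpty (Fin F.c) := by rw [hc]; infer_instance
    rw [Finset.univ_eq_empty, Finset.sum_empty, zero_mul]
    exact hA0
  · have hc0 : (0 : ℝ) < F.c := by exact_mod_cast Nat.pos_of_ne_zero hc
    rw [Finset.sum_mul]
    have h1 : ∀ i : Fin F.c, ((B i).card : ℝ) * n ≤ A / F.c := fun i => by
      rw [le_div_iff₀ hc0]; exact hBcard i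
    refine (Finset.sum_le_sum fun i _ => h1 i).trans ?_
    rw [Finset.sum_const, Finset.card_univ, Fintype.card_fin, nsmul_eq_mul]
    exact le_of_eq (by field_simp)

end Pool.Agent.Helper1.NX.STEP
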