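import Pool.Agent.Helper1.NX.STEP

/-! # NX / TOPZ, SUBT (MP_75608d_al): no eigenvalue near one; more generators -/

set_option linter.unusedVariables false
set_option linter.unusedSectionVars false

namespace Pool.Agent.Helper1.NX.TOPZ

open Matrix Equiv Filter Topology Pool.Agent.Helper15.An
open scoped ComplexOrder
open Pool.Agent.Helper6.NX

theorem thm : Pool.Agent.Helper6.NX.S_TOPZ := by
  intro n k z F i g hk h0
  have h := Pool.Agent.Helper1.NX.STEP.herm F (by omega : 0 < k) z i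
  rw [Pool.Agent.Helper1.NX.STEP.dd_eq F (by omega : 0 < k) z i g] at h0
  refine posSemidef_of_eigenvalues_le h (1 - g) fun j => ?_
  by_contra hj
  push Not at hj
  have := (Fintype.card_eq_zero_iff.1 h0)
  exact this.false ⟨j, hj.le⟩

theorem thmSUBT : Pool.Agent.Helper6.NX.S_SUBT := by
  intro n k k' D hk x ρ g hk1 hu hP
  obtain ⟨m, rfl⟩ := Nat.exists_eq_add_of_le hk
  have hk0 : 0 < k := by omega
  have hkm : 0 < k + m := by omega
  have hH := wop_isHermitian ρ hu (tupW_isSP hkm x)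
  have hH' : ((1 - (k : ℝ) / ((k + m : ℕ) : ℝ) * g) • (1 : Matrix (Fin D) (Fin D) ℂ) -
      wop ρ (tupW x)).IsHermitian := by
    unfold Matrix.IsHermitian
    rw [conjTranspose_sub, conjTranspose_smul, hH.eq, conjTranspose_one]
    simp
  refine posSemidef_of_qf hH' fun v => ?_
  have h0 : 0 ≤ nrm2 v := nrm2_nonneg v
  have h1 := qf_nonneg hP v
  rw [qf_sub, qf_smul, qf_one] at h1
  have h2 := qf_avgRe hkm (fun l => ρ (x l : Perm (Fin n))) v
  rw [← wop_tupW ρ hu x, Fin.sum_univ_add] at h2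
  have h3 := qf_avgRe hk0 (fun l => ρ (x (Fin.castAdd m l) : Perm (Fin n))) v
  have h4 : (fun l => x (Fin.castLE hk l)) = fun l : Fin k => x (Fin.castAdd m l) := rfl
  rw [h4, wop_tupW ρ hu] at h1
  have h5 : ∀ l : Fin m, qf (ρ (x (Fin.natAdd k l) : Perm (Fin n))) v ≤ nrm2 v := by
    intro l
    have := nrm2_sub_unitary (hu (x (Fin.natAdd k l) : Perm (Fin n))) v
    have h6 := nrm2_nonneg (ρ (x (Fin.natAdd k l) : Perm (Fin n)) *ᵥ v - v)
    linarith
  have h6 : ∑ l : Fin m, qf (ρ (x (Fin.natAdd k l) : Perm (Fin n))) v ≤ m * nrm2 v := by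
    refine (Finset.sum_le_sum fun l _ => h5 l).trans ?_
    simp
  rw [qf_sub, qf_smul, qf_one]
  have hkm' : (0 : ℝ) < ((k + m : ℕ) : ℝ) := by exact_mod_cast hkm
  have hk' : (0 : ℝ) < (k : ℝ) := by exact_mod_cast hk0
  have h7 : ((k + m : ℕ) : ℝ) * qf (wop ρ (tupW x)) v ≤
      (k : ℝ) * ((1 - g) * nrm2 v) + m * nrm2 v := by
    rw [h2, ← h3]
    have := mul_le_mul_of_nonneg_left h1 hk'.le
    rw [mul_zero, mul_sub] at this
    linarith
  have h8 : ((k + m : ℕ) : ℝ) * ((1 - (k : ℝ) / ((k + m : ℕ) : ℝ) * g) * nrm2 v) =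
      (k : ℝ) * ((1 - g) * nrm2 v) + m * nrm2 v := by
    field_simp
    push_cast
    ring
  rw [← h8] at h7
  have := le_of_mul_le_mul_left h7 hkm'
  linarith

end Pool.Agent.Helper1.NX.TOPZ
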